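import Mathlib

set_option autoImplicit false

/-!
# Classification of the `(n/2)`-bent Boolean functions

For every even `n = 2m ≥ 2` the `(n/2)`-bent functions in `n` variables are exactly the functions
`∑_{i<j, i,j ∈ A} x_i x_j + ∑_{i<j, i,j ∉ A} x_i x_j + affine` with `A` a set of indices of even
size; moreover for `n ≥ 4` all the classes of `k`-bent functions with `2 ≤ k ≤ n/2` coincide.
-/

namespace Pool.Agent.Results.MP_0e3175_co.Classification

open Finset

/-- Vectors of `F_2^n`, `n = 2m`. -/
abbrev Vec (m : ℕ) : Type := Fin (2 * m) → ZMod 2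

/-- The sign `(-1)^a` of `a ∈ F_2`. -/
def sgn (a : ZMod 2) : ℤ := (-1) ^ a.val

/-- `u_i(x) = x_{2i-1} + x_{2i}` in the one-based indexing of the problem; with zero-based indices
this is `x_{2i} + x_{2i+1}`, `0 ≤ i < m`. -/
def u {m : ℕ} (i : Fin m) (x : Vec m) : ZMod 2 :=
  x ⟨2 * i.val, by omega⟩ + x ⟨2 * i.val + 1, by omega⟩

/-- The expression `⟨x,y⟩_k = ⟨x,y⟩ + ∑_{1 ≤ i ≤ j ≤ k} u_i(x) u_j(x) u_i(y) u_j(y)`. -/
def form {m : ℕ} (k : ℕ) (x y : Vec m) : ZMod 2 :=
  ∑ i, x i * y i +
    ∑ i : Fin m, ∑ j : Fin m, if i ≤ j ∧ j.val < k then u i x * u j x * u i y * u j y else 0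

/-- The `k`-Walsh-Hadamard transform `W_f^{(k)}(y) = ∑_x (-1)^{f(x) + ⟨x,y⟩_k}`. -/
def walsh {m : ℕ} (k : ℕ) (f : Vec m → ZMod 2) (y : Vec m) : ℤ :=
  ∑ x : Vec m, sgn (f x + form k x y)

/-- `f` is `k`-bent: `W_{f ∘ π}^{(j)}(y) = ± 2^{n/2}` for all permutations `π` of the coordinates,
all `1 ≤ j ≤ k` and all `y`. -/
def IsKBent (m k : ℕ) (f : Vec m → ZMod 2) : Prop :=
  ∀ π : Equiv.Perm (Fin (2 * m)), ∀ j : ℕ, 1 ≤ j → j ≤ k → ∀ y : Vec m,
    walsh j (fun x => f (fun i => x (π i))) y = 2 ^ m ∨
    walsh j (fun x => f (fun i => x (π i))) y = -2 ^ m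

/-- The quadratic form `∑ x_i x_j`, the sum over all `i < j` lying both in `A` or both outside
`A`. -/
def Q {n : ℕ} (A : Finset (Fin n)) (x : Fin n → ZMod 2) : ZMod 2 :=
  ∑ i, ∑ j, if i < j ∧ (i ∈ A ↔ j ∈ A) then x i * x j else 0

/-- The explicit class: `f = Q_A + (affine function)` for a set `A` of even size. -/
def IsExplicit (m : ℕ) (f : Vec m → ZMod 2) : Prop :=
  ∃ (A : Finset (Fin (2 * m))) (b : Vec m) (c : ZMod 2), Even A.card ∧
    ∀ x, f x = Q A x + ∑ i, b i * x i + c

/-! ### Signs -/

theorem sgn_add (a b : ZMod 2) : sgn (a + b) = sgn a * sgn b := by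
  revert a b; decide

theorem sgn_zero : sgn 0 = 1 := by decide

theorem sgn_one : sgn 1 = -1 := by decide

theorem sgn_mul_self (a : ZMod 2) : sgn a * sgn a = 1 := by revert a; decide

theorem sgn_cases (a : ZMod 2) : sgn a = 1 ∨ sgn a = -1 := by revert a; decide

theorem sgn_inj {a b : ZMod 2} (h : sgn a = sgn b) : a = b := by
  revert a b; decide

theorem zmod2_cases (a : ZMod 2) : a = 0 ∨ a = 1 := by revert a; decide

theorem zmod2_add_self (a : ZMod 2) : a + a = 0 := by revert a; decide

theorem zmod2_mul_self (a : ZMod 2) : a * a = a := by revert a; decide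

theorem exists_sgn {e : ℤ} (h : e = 1 ∨ e = -1) : ∃ a : ZMod 2, sgn a = e := by
  rcases h with rfl | rfl
  · exact ⟨0, sgn_zero⟩
  · exact ⟨1, sgn_one⟩

/-! ### Inner product, parity, weight -/

section Basic

variable {n : ℕ}

def ip (x y : Fin n → ZMod 2) : ZMod 2 := ∑ i, x i * y i

def par (x : Fin n → ZMod 2) : ZMod 2 := ∑ i, x i

def wt (x : Fin n → ZMod 2) : ℕ := ∑ i, (x i).val

theorem ip_comm (x y : Fin n → ZMod 2) : ip x y = ip y x := by
  unfold ip; exact sum_congr rfl fun i _ => mul_comm _ _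

theorem ip_add_left (x y z : Fin n → ZMod 2) : ip (x + y) z = ip x z + ip y z := by
  unfold ip; rw [← sum_add_distrib]; exact sum_congr rfl fun i _ => by simp [add_mul]

theorem ip_add_right (x y z : Fin n → ZMod 2) : ip x (y + z) = ip x y + ip x z := by
  rw [ip_comm, ip_add_left, ip_comm y, ip_comm z]

theorem par_add (x y : Fin n → ZMod 2) : par (x + y) = par x + par y := by
  unfold par; rw [← sum_add_distrib]; rfl

theorem ip_one_right (x : Fin n → ZMod 2) : ip x 1 = par x := by
  unfold ip par; simp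

theorem zmod2_val_cast (a : ZMod 2) : ((a.val : ℕ) : ZMod 2) = a := ZMod.natCast_zmod_val a

theorem wt_cast (x : Fin n → ZMod 2) : ((wt x : ℕ) : ZMod 2) = par x := by
  unfold wt par
  rw [Nat.cast_sum]
  exact sum_congr rfl fun i _ => zmod2_val_cast _

theorem vec_add_self (x : Fin n → ZMod 2) : x + x = 0 := by
  funext i; exact zmod2_add_self _

theorem vec_add_cancel (x y : Fin n → ZMod 2) : x + (x + y) = y := by
  rw [← add_assoc, vec_add_self, zero_add]

/-- Splitting a double sum into the part above the diagonal, below the diagonal and the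
diagonal. -/
theorem sum_split {M : Type*} [AddCommMonoid M] (T : Fin n → Fin n → M) :
    ∑ i, ∑ j, T i j = ∑ i, ∑ j, (if i < j then T i j + T j i else 0) + ∑ i, T i i := by
  have h1 : ∑ i, ∑ j, T i j = ∑ i, ∑ j, (if i < j then T i j else 0) +
      ∑ i, ∑ j, (if j < i then T i j else 0) + ∑ i, ∑ j, (if i = j then T i j else 0) := by
    rw [← sum_add_distrib, ← sum_add_distrib]
    refine sum_congr rfl fun i _ => ?_
    rw [← sum_add_distrib, ← sum_add_distrib]
    refine sum_congr rfl fun j _ => ?_
    rcases lt_trichotomy i j with h | h | h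
    · simp [h, h.ne, not_lt.2 h.le]
    · subst h; simp
    · simp [h, h.ne', not_lt.2 h.le]
  have h2 : ∑ i, ∑ j, (if j < i then T i j else 0) = ∑ i, ∑ j, (if i < j then T j i else 0) :=
    sum_comm
  have h3 : ∑ i, ∑ j, (if i = j then T i j else 0) = ∑ i, T i i := by
    refine sum_congr rfl fun i _ => ?_
    rw [sum_ite_eq]; simp
  rw [h1, h2, h3, ← sum_add_distrib]
  congr 1
  refine sum_congr rfl fun i _ => ?_
  rw [← sum_add_distrib]
  refine sum_congr rfl fun j _ => ?_
  split_ifs <;> simp

/-- partial parity over a set -/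
def parOn (A : Finset (Fin n)) (x : Fin n → ZMod 2) : ZMod 2 := ∑ i, if i ∈ A then x i else 0

theorem parOn_add (A : Finset (Fin n)) (x y : Fin n → ZMod 2) :
    parOn A (x + y) = parOn A x + parOn A y := by
  unfold parOn
  rw [← sum_add_distrib]
  refine sum_congr rfl fun i _ => ?_
  split_ifs <;> simp

theorem parOn_compl (A : Finset (Fin n)) (x : Fin n → ZMod 2) :
    parOn A x + parOn Aᶜ x = par x := by
  unfold parOn par
  rw [← sum_add_distrib]
  refine sum_congr rfl fun i _ => ?_
  by_cases h : i ∈ A <;> simp [h]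

/-- The polar form of `Q A`. -/
theorem Q_add (A : Finset (Fin n)) (x y : Fin n → ZMod 2) :
    Q A (x + y) = Q A x + Q A y +
      (parOn A x * parOn A y + parOn Aᶜ x * parOn Aᶜ y + ip x y) := by
  have h1 : parOn A x * parOn A y + parOn Aᶜ x * parOn Aᶜ y =
      ∑ i, ∑ j, if (i ∈ A ↔ j ∈ A) then x i * y j else 0 := by
    unfold parOn
    rw [sum_mul_sum, sum_mul_sum, ← sum_add_distrib]
    refine sum_congr rfl fun i _ => ?_
    rw [← sum_add_distrib]
    refine sum_congr rfl fun j _ => ?_
    by_cases hi : i ∈ A <;> by_cases hj : j ∈ A <;> simp [hi, hj]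
  rw [h1, sum_split]
  have h2 : ∑ i, (if (i ∈ A ↔ i ∈ A) then x i * y i else 0) = ip x y := by
    unfold ip; simp
  rw [h2, add_assoc (∑ i, ∑ j, _), zmod2_add_self, add_zero]
  unfold Q
  rw [← sum_add_distrib, ← sum_add_distrib]
  refine sum_congr rfl fun i _ => ?_
  rw [← sum_add_distrib, ← sum_add_distrib]
  refine sum_congr rfl fun j _ => ?_
  by_cases h : i < j
  · by_cases hA : (i ∈ A ↔ j ∈ A)
    · have hA' : (j ∈ A ↔ i ∈ A) := hA.symm
      rw [if_pos ⟨h, hA⟩, if_pos ⟨h, hA⟩, if_pos ⟨h, hA⟩, if_pos h, if_pos hA, if_pos hA',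
        Pi.add_apply, Pi.add_apply]
      ring
    · have hA' : ¬ (j ∈ A ↔ i ∈ A) := fun h => hA h.symm
      rw [if_neg (fun h => hA h.2), if_neg (fun h => hA h.2), if_neg (fun h => hA h.2), if_pos h,
        if_neg hA, if_neg hA']
      ring
  · rw [if_neg (fun h' => h h'.1), if_neg (fun h' => h h'.1), if_neg (fun h' => h h'.1), if_neg h]
    ring

theorem Q_univ_add (x y : Fin n → ZMod 2) :
    Q univ (x + y) = Q univ x + Q univ y + (par x * par y + ip x y) := by
  rw [Q_add]
  have h1 : ∀ z : Fin n → ZMod 2, parOn univ z = par z := fun z => by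
    unfold parOn par; simp
  have h2 : ∀ z : Fin n → ZMod 2, parOn (univ : Finset (Fin n))ᶜ z = 0 := fun z => by
    unfold parOn; simp
  rw [h1, h1, h2, h2]
  ring

theorem Q_eq (A : Finset (Fin n)) (x : Fin n → ZMod 2) :
    Q A x = Q univ x + parOn A x * parOn Aᶜ x := by
  have h1 : parOn A x * parOn Aᶜ x =
      ∑ i, ∑ j, if (i ∈ A ∧ j ∉ A) then x i * x j else 0 := by
    unfold parOn
    rw [sum_mul_sum]
    refine sum_congr rfl fun i _ => ?_
    refine sum_congr rfl fun j _ => ?_
    by_cases hi : i ∈ A <;> by_cases hj : j ∈ A <;> simp [hi, hj]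
  rw [h1, sum_split]
  have h2 : ∑ i, (if (i ∈ A ∧ i ∉ A) then x i * x i else 0) = 0 :=
    sum_eq_zero fun i _ => by simp
  rw [h2, add_zero]
  unfold Q
  rw [← sum_add_distrib]
  refine sum_congr rfl fun i _ => ?_
  rw [← sum_add_distrib]
  refine sum_congr rfl fun j _ => ?_
  by_cases h : i < j
  · by_cases hi : i ∈ A <;> by_cases hj : j ∈ A <;>
      simp [h, hi, hj, mul_comm (x j) (x i), zmod2_add_self]
  · simp [h]

/-- `Q univ x` in terms of the weight. -/
theorem Q_univ_wt (x : Fin n → ZMod 2) :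
    ∃ q : ℕ, Q univ x = (q : ZMod 2) ∧ wt x * wt x = 2 * q + wt x := by
  refine ⟨∑ i, ∑ j, if i < j then (x i).val * (x j).val else 0, ?_, ?_⟩
  · unfold Q
    rw [Nat.cast_sum]
    refine sum_congr rfl fun i _ => ?_
    rw [Nat.cast_sum]
    refine sum_congr rfl fun j _ => ?_
    by_cases h : i < j
    · simp only [h, mem_univ, and_true, if_true, Nat.cast_mul, zmod2_val_cast]
    · simp [h]
  · unfold wt
    rw [sum_mul_sum, sum_split]
    congr 1
    · rw [mul_sum]
      refine sum_congr rfl fun i _ => ?_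
      rw [mul_sum]
      refine sum_congr rfl fun j _ => ?_
      split_ifs
      · ring
      · rfl
    · refine sum_congr rfl fun i _ => ?_
      rcases zmod2_cases (x i) with h | h <;> rw [h] <;> decide

theorem Q_univ_of_wt_even {x : Fin n → ZMod 2} {r : ℕ} (h : wt x = 2 * r) :
    Q univ x = (r : ZMod 2) := by
  obtain ⟨q, hq, h2⟩ := Q_univ_wt x
  rw [h] at h2
  have h3 : q + r = 2 * (r * r) := by nlinarith
  have h4 := congrArg (fun t : ℕ => (t : ZMod 2)) h3
  push_cast at h4
  have h5 : (2 : ZMod 2) = 0 := by decide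
  rw [h5, zero_mul] at h4
  rw [hq]
  exact (CharTwo.add_eq_zero.1 h4)

theorem Q_univ_of_wt_odd {x : Fin n → ZMod 2} {r : ℕ} (h : wt x = 2 * r + 1) :
    Q univ x = (r : ZMod 2) := by
  obtain ⟨q, hq, h2⟩ := Q_univ_wt x
  rw [h] at h2
  have h3 : q = 2 * (r * r) + r := by nlinarith
  have h4 := congrArg (fun t : ℕ => (t : ZMod 2)) h3
  push_cast at h4
  have h5 : (2 : ZMod 2) = 0 := by decide
  rw [h5, zero_mul, zero_add] at h4
  rw [hq, h4]

/-- Effect of a transposition of coordinates on the inner product. -/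
theorem ip_swap (z y : Fin n → ZMod 2) {a b : Fin n} (hab : a ≠ b) :
    ip z (fun i => y (Equiv.swap a b i)) = ip z y + (z a + z b) * (y a + y b) := by
  have h1 : ip z (fun i => y (Equiv.swap a b i)) + ip z y = (z a + z b) * (y a + y b) := by
    unfold ip
    rw [← sum_add_distrib]
    have h2 : ∀ i ∉ ({a, b} : Finset (Fin n)),
        z i * y (Equiv.swap a b i) + z i * y i = 0 := by
      intro i hi
      simp only [mem_insert, mem_singleton, not_or] at hi
      rw [Equiv.swap_apply_of_ne_of_ne hi.1 hi.2, zmod2_add_self]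
    rw [← sum_subset (subset_univ {a, b}) (fun i _ hi => h2 i hi), sum_pair hab,
      Equiv.swap_apply_left, Equiv.swap_apply_right]
    ring
  rw [← h1]
  have := zmod2_add_self (ip z y)
  rw [add_comm (ip z fun i => y (Equiv.swap a b i)), ← add_assoc, this, zero_add]

theorem wt_perm (y : Fin n → ZMod 2) (σ : Equiv.Perm (Fin n)) :
    wt (fun i => y (σ i)) = wt y := by
  unfold wt
  exact Equiv.sum_comp σ (fun i => (y i).val)

end Basic

/-! ### Functions which are affine on each slice -/

section Slices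

variable {n : ℕ}

theorem exists_one_zero {y y' : Fin n → ZMod 2} (h : wt y = wt y') (hne : y ≠ y') :
    ∃ c, y c = 1 ∧ y' c = 0 := by
  by_contra hcon
  push Not at hcon
  have hle : ∀ i ∈ (univ : Finset (Fin n)), (y i).val ≤ (y' i).val := by
    intro i _
    rcases zmod2_cases (y i) with h1 | h1
    · rw [h1]; exact Nat.zero_le _
    · rcases zmod2_cases (y' i) with h2 | h2
      · exact absurd h2 (hcon i h1)
      · rw [h1, h2]
  apply hne
  funext i
  exact ZMod.val_injective 2 ((sum_eq_sum_iff_of_le hle).1 h i (mem_univ i))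

theorem transport (w : ℕ) (P : Fin n → Prop) (H : (Fin n → ZMod 2) → ℤ)
    (hinv : ∀ y, wt y = w → ∀ c d, P c → P d → y c = 1 → y d = 0 →
      H (fun i => y (Equiv.swap c d i)) = H y) :
    ∀ (N : ℕ) (y y' : Fin n → ZMod 2), wt y = w → wt y' = w → (∀ i, ¬ P i → y i = y' i) →
      (univ.filter (fun i => y i ≠ y' i)).card ≤ N → H y = H y' := by
  intro N
  induction N with
  | zero =>
    intro y y' _ _ _ hN
    have h0 : univ.filter (fun i => y i ≠ y' i) = ∅ := card_eq_zero.1 (Nat.le_zero.1 hN)
    have : y = y' := by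
      funext i
      by_contra h
      have : i ∈ univ.filter (fun i => y i ≠ y' i) := by simp [h]
      rw [h0] at this
      simp at this
    rw [this]
  | succ N ih =>
    intro y y' hy hy' hP hN
    by_cases hne : y = y'
    · rw [hne]
    obtain ⟨c, hc, hc'⟩ := exists_one_zero (hy.trans hy'.symm) hne
    obtain ⟨d, hd', hd⟩ := exists_one_zero (hy'.trans hy.symm) (Ne.symm hne)
    have hPc : P c := by
      by_contra h
      rw [hP c h, hc'] at hc
      exact absurd hc (by decide)
    have hPd : P d := by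
      by_contra h
      rw [hP d h, hd'] at hd
      exact absurd hd (by decide)
    have hcd : c ≠ d := by
      rintro rfl
      rw [hc] at hd
      exact absurd hd (by decide)
    rw [← hinv y hy c d hPc hPd hc hd]
    apply ih
    · rw [wt_perm y (Equiv.swap c d)]; exact hy
    · exact hy'
    · intro i hi
      have h1 : i ≠ c := fun h => hi (h ▸ hPc)
      have h2 : i ≠ d := fun h => hi (h ▸ hPd)
      rw [Equiv.swap_apply_of_ne_of_ne h1 h2]
      exact hP i hi
    · have hss : univ.filter (fun i => y (Equiv.swap c d i) ≠ y' i) ⊂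
          univ.filter (fun i => y i ≠ y' i) := by
        rw [ssubset_iff_of_subset]
        · refine ⟨c, ?_, ?_⟩
          · simp [hc, hc']
          · simp [hd, hc']
        · intro i hi
          simp only [mem_filter, mem_univ, true_and] at hi ⊢
          by_cases h1 : i = c
          · subst h1; rw [hc, hc']; decide
          · by_cases h2 : i = d
            · subst h2; rw [hd, hd']; decide
            · rwa [Equiv.swap_apply_of_ne_of_ne h1 h2] at hi
      have := card_lt_card hss
      omega

/-- The second differences of `G` along disjoint transpositions are trivial. -/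
def SwapCond (G : (Fin n → ZMod 2) → ℤ) : Prop :=
  ∀ a b c d : Fin n, a ≠ b → a ≠ c → a ≠ d → b ≠ c → b ≠ d → c ≠ d → ∀ y : Fin n → ZMod 2,
    y a ≠ y b → y c ≠ y d →
    G y * G (fun i => y (Equiv.swap a b i)) *
      (G (fun i => y (Equiv.swap c d i)) *
        G (fun i => y (Equiv.swap c d (Equiv.swap a b i)))) = 1

theorem comp_swap_of_eq {y : Fin n → ZMod 2} {a b : Fin n} (h : y a = y b) :
    (fun i => y (Equiv.swap a b i)) = y := by
  funext i
  by_cases h1 : i = a
  · subst h1; rw [Equiv.swap_apply_left]; exact h.symm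
  · by_cases h2 : i = b
    · subst h2; rw [Equiv.swap_apply_right]; exact h
    · rw [Equiv.swap_apply_of_ne_of_ne h1 h2]

theorem sq_of_pm {e : ℤ} (h : e = 1 ∨ e = -1) : e * e = 1 := by
  rcases h with rfl | rfl <;> norm_num

theorem mul_pm {e f : ℤ} (h : e = 1 ∨ e = -1) (h' : f = 1 ∨ f = -1) :
    e * f = 1 ∨ e * f = -1 := by
  rcases h with rfl | rfl <;> rcases h' with rfl | rfl <;> simp

theorem R_const {G : (Fin n → ZMod 2) → ℤ} (hG : ∀ y, G y = 1 ∨ G y = -1) (hsw : SwapCond G)
    {a b : Fin n} (hab : a ≠ b) {w : ℕ} {y y' : Fin n → ZMod 2} (hy : wt y = w) (hy' : wt y' = w)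
    (h1 : y a ≠ y b) (h2 : y' a ≠ y' b) :
    G y * G (fun i => y (Equiv.swap a b i)) = G y' * G (fun i => y' (Equiv.swap a b i)) := by
  have key : ∀ z z' : Fin n → ZMod 2, wt z = w → wt z' = w → z a = z' a → z b = z' b →
      G z * G (fun i => z (Equiv.swap a b i)) = G z' * G (fun i => z' (Equiv.swap a b i)) := by
    intro z z' hz hz' ha hb
    refine transport w (fun i => i ≠ a ∧ i ≠ b)
      (fun z => G z * G (fun i => z (Equiv.swap a b i))) ?_ _ z z' hz hz' ?_ le_rfl
    · intro t ht c d hc hd htc htd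
      by_cases hab' : t a = t b
      · have e1 := comp_swap_of_eq hab'
        have e2 : (fun i => (fun j => t (Equiv.swap c d j)) (Equiv.swap a b i)) =
            (fun i => t (Equiv.swap c d i)) := by
          refine comp_swap_of_eq (y := fun j => t (Equiv.swap c d j)) ?_
          rw [Equiv.swap_apply_of_ne_of_ne hc.1.symm hd.1.symm,
            Equiv.swap_apply_of_ne_of_ne hc.2.symm hd.2.symm]
          exact hab'
        change G (fun i => t (Equiv.swap c d i)) *
          G (fun i => (fun j => t (Equiv.swap c d j)) (Equiv.swap a b i)) =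
          G t * G (fun i => t (Equiv.swap a b i))
        rw [e1, e2, sq_of_pm (hG _), sq_of_pm (hG _)]
      · have hcd : c ≠ d := by
          rintro rfl
          rw [htc] at htd
          exact absurd htd (by decide)
        have htcd : t c ≠ t d := by rw [htc, htd]; decide
        have h := hsw a b c d hab hc.1.symm hd.1.symm hc.2.symm hd.2.symm hcd t hab' htcd
        change G (fun i => t (Equiv.swap c d i)) *
          G (fun i => t (Equiv.swap c d (Equiv.swap a b i))) =
          G t * G (fun i => t (Equiv.swap a b i))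
        have hX := mul_pm (hG t) (hG (fun i => t (Equiv.swap a b i)))
        generalize G t * G (fun i => t (Equiv.swap a b i)) = X at h hX ⊢
        rcases hX with rfl | rfl <;> linarith
    · intro i hi
      by_cases hia : i = a
      · rw [hia]; exact ha
      · have : i = b := by
          by_contra hib
          exact hi ⟨hia, hib⟩
        rw [this]; exact hb
  by_cases hya : y a = y' a
  · refine key y y' hy hy' hya ?_
    rw [← hya] at h2
    rcases zmod2_cases (y a) with h | h <;> rcases zmod2_cases (y b) with h' | h' <;>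
      rcases zmod2_cases (y' b) with h'' | h'' <;> simp_all
  · have e1 : y a = y' b ∧ y b = y' a := by
      rcases zmod2_cases (y a) with h | h <;> rcases zmod2_cases (y b) with h' | h' <;>
        rcases zmod2_cases (y' b) with h'' | h'' <;>
        rcases zmod2_cases (y' a) with h3 | h3 <;> simp_all
    have h3 := key y (fun i => y' (Equiv.swap a b i)) hy (by rw [wt_perm]; exact hy')
      (by simp only [Equiv.swap_apply_left]; exact e1.1)
      (by simp only [Equiv.swap_apply_right]; exact e1.2)
    rw [h3]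
    simp only [Equiv.swap_apply_self]
    exact mul_comm _ _

theorem slice {G : (Fin n → ZMod 2) → ℤ} (hG : ∀ y, G y = 1 ∨ G y = -1) (hsw : SwapCond G)
    (i0 : Fin n) (w : ℕ) :
    ∃ (l : Fin n → ZMod 2) (e : ZMod 2), ∀ y, wt y = w → G y = sgn e * sgn (ip l y) := by
  have hl : ∀ a : Fin n, ∃ la : ZMod 2, ∀ y, wt y = w → y i0 ≠ y a →
      G y * G (fun i => y (Equiv.swap i0 a i)) = sgn la := by
    intro a
    by_cases hex : ∃ y, wt y = w ∧ y i0 ≠ y a
    · obtain ⟨y, hy, hya⟩ := hex
      obtain ⟨la, hla⟩ := exists_sgn (mul_pm (hG y) (hG (fun i => y (Equiv.swap i0 a i))))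
      refine ⟨la, fun y' hy' hya' => ?_⟩
      rw [hla]
      refine R_const hG hsw ?_ hy' hy hya' hya
      rintro rfl
      exact hya rfl
    · push Not at hex
      exact ⟨0, fun y hy hya => absurd (hex y hy) hya⟩
  choose l hl using hl
  let l2 : Fin n → ZMod 2 := fun a => if a = i0 then 0 else l a
  let H : (Fin n → ZMod 2) → ℤ := fun y => G y * sgn (ip l2 y)
  have c1 : ∀ a, a ≠ i0 → ∀ y, wt y = w → H (fun i => y (Equiv.swap i0 a i)) = H y := by
    intro a ha y hy
    by_cases hya : y i0 = y a
    · rw [comp_swap_of_eq hya]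
    · have h1 := hl a y hy hya
      have h2 : y i0 + y a = 1 := by
        rcases zmod2_cases (y i0) with h | h <;> rcases zmod2_cases (y a) with h' | h' <;>
          simp_all
      have h3 : l2 i0 + l2 a = l a := by simp [l2, ha]
      change G (fun i => y (Equiv.swap i0 a i)) * sgn (ip l2 (fun i => y (Equiv.swap i0 a i))) =
        G y * sgn (ip l2 y)
      rw [ip_swap l2 y ha.symm, h2, h3, mul_one, sgn_add, ← h1]
      have h4 := sq_of_pm (hG (fun i => y (Equiv.swap i0 a i)))
      calc _ = (G (fun i => y (Equiv.swap i0 a i)) * G (fun i => y (Equiv.swap i0 a i))) *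
            (G y * sgn (ip l2 y)) := by ring
        _ = _ := by rw [h4, one_mul]
  have c2 : ∀ c d, c ≠ d → ∀ y, wt y = w → H (fun i => y (Equiv.swap c d i)) = H y := by
    intro c d hcd y hy
    by_cases hc : c = i0
    · subst hc
      exact c1 d hcd.symm y hy
    · by_cases hd : d = i0
      · subst hd
        rw [Equiv.swap_comm]
        exact c1 c hcd y hy
      · have e1 : Equiv.swap c d = Equiv.swap i0 c * Equiv.swap i0 d * Equiv.swap i0 c := by
          rw [Equiv.swap_comm i0 d, Equiv.swap_mul_swap_mul_swap hd hcd.symm]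
        have s1 := c1 c hc y hy
        have w1 : wt (fun i => y (Equiv.swap i0 c i)) = w := by rw [wt_perm]; exact hy
        have s2 := c1 d hd _ w1
        have w2 : wt (fun i => y (Equiv.swap i0 c (Equiv.swap i0 d i))) = w := by
          rw [wt_perm (fun i => y (Equiv.swap i0 c i)) (Equiv.swap i0 d)]; exact w1
        have s3 := c1 c hc _ w2
        rw [e1]
        simp only [Equiv.Perm.coe_mul, Function.comp_apply]
        rw [s3, s2, s1]
  have hconst : ∀ y y', wt y = w → wt y' = w → H y = H y' := by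
    intro y y' hy hy'
    refine transport w (fun _ => True) H ?_ _ y y' hy hy' (fun i hi => absurd trivial hi) le_rfl
    intro t ht c d _ _ htc htd
    refine c2 c d ?_ t ht
    rintro rfl
    rw [htc] at htd
    exact absurd htd (by decide)
  by_cases hex : ∃ y : Fin n → ZMod 2, wt y = w
  · obtain ⟨y0, hy0⟩ := hex
    obtain ⟨e, he⟩ := exists_sgn (mul_pm (hG y0) (sgn_cases (ip l2 y0)))
    refine ⟨l2, e, fun y hy => ?_⟩
    have h1 : G y * sgn (ip l2 y) = sgn e := by rw [he]; exact hconst y y0 hy hy0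
    rw [← h1, mul_assoc, sgn_mul_self, mul_one]
  · push Not at hex
    exact ⟨0, 0, fun y hy => absurd hy (hex y)⟩

end Slices

/-! ### Poisson summation over the code attached to a perfect matching -/

section Poisson

theorem sum_sgn_ip {k : ℕ} (c : Fin k → ZMod 2) :
    ∑ v : Fin k → ZMod 2, sgn (ip v c) = if c = 0 then 2 ^ k else 0 := by
  by_cases hc : c = 0
  · subst hc
    have h0 : ∀ v : Fin k → ZMod 2, sgn (ip v 0) = 1 := fun v => by
      have : ip v (0 : Fin k → ZMod 2) = 0 := by simp [ip]
      rw [this, sgn_zero]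
    simp only [h0, if_true]
    simp [ZMod.card]
  · rw [if_neg hc]
    obtain ⟨j, hj⟩ : ∃ j, c j ≠ 0 := by
      by_contra h
      push Not at h
      exact hc (funext h)
    have hj1 : c j = 1 := (zmod2_cases (c j)).resolve_left hj
    have h1 : ∑ v : Fin k → ZMod 2, sgn (ip v c) =
        ∑ v : Fin k → ZMod 2, sgn (ip (v + Pi.single j 1) c) :=
      (Equiv.sum_comp (Equiv.addRight (Pi.single j (1 : ZMod 2) : Fin k → ZMod 2))
        (fun v => sgn (ip v c))).symm
    have h2 : ip (Pi.single j (1 : ZMod 2)) c = 1 := by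
      unfold ip
      rw [sum_eq_single j]
      · simp [hj1]
      · intro b _ hb; simp [hb]
      · intro h; exact absurd (mem_univ j) h
    have h3 : ∑ v : Fin k → ZMod 2, sgn (ip (v + Pi.single j 1) c) =
        -∑ v : Fin k → ZMod 2, sgn (ip v c) := by
      rw [← sum_neg_distrib]
      refine sum_congr rfl fun v _ => ?_
      rw [ip_add_left, sgn_add, h2, sgn_one]
      ring
    linarith [h1.trans h3]

variable {m : ℕ}

/-- The embedding `F_2^m → F_2^{2m}` attached to a perfect matching of the coordinates. -/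
def emb (e : Fin m × Fin 2 ≃ Fin (2 * m)) (v : Fin m → ZMod 2) : Vec m :=
  fun i => v (e.symm i).1

theorem sum_pairs {M : Type*} [AddCommMonoid M] (e : Fin m × Fin 2 ≃ Fin (2 * m))
    (f : Fin (2 * m) → M) : ∑ i, f i = ∑ i : Fin m, (f (e (i, 0)) + f (e (i, 1))) := by
  rw [← Equiv.sum_comp e, Fintype.sum_prod_type]
  refine sum_congr rfl fun i _ => ?_
  rw [Fin.sum_univ_two]

theorem emb_apply (e : Fin m × Fin 2 ≃ Fin (2 * m)) (v : Fin m → ZMod 2) (p : Fin m × Fin 2) :
    emb e v (e p) = v p.1 := by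
  unfold emb; rw [Equiv.symm_apply_apply]

theorem ip_emb (e : Fin m × Fin 2 ≃ Fin (2 * m)) (t : Vec m) (v : Fin m → ZMod 2) :
    ip t (emb e v) = ip v (fun i => t (e (i, 0)) + t (e (i, 1))) := by
  unfold ip
  rw [sum_pairs e]
  refine sum_congr rfl fun i _ => ?_
  rw [emb_apply, emb_apply]
  ring

/-- `F` and `G` are `±1`-valued functions dual to each other. -/
structure Dual (F G : Vec m → ℤ) : Prop where
  F_pm : ∀ x, F x = 1 ∨ F x = -1
  G_pm : ∀ y, G y = 1 ∨ G y = -1
  eq : ∀ y, ∑ x, F x * sgn (ip x y) = 2 ^ m * G y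

theorem emb_injective (e : Fin m × Fin 2 ≃ Fin (2 * m)) : Function.Injective (emb e) := by
  intro v v' h
  funext i
  have := congrFun h (e (i, 0))
  rwa [emb_apply, emb_apply] at this

theorem poisson {F G : Vec m → ℤ} (h : Dual F G) (e : Fin m × Fin 2 ≃ Fin (2 * m))
    (y0 z : Vec m) :
    ∑ v, G (y0 + emb e v) * sgn (ip z (y0 + emb e v)) =
      ∑ v, F (z + emb e v) * sgn (ip (emb e v) y0) := by
  have h2 : (2 : ℤ) ^ m ≠ 0 := pow_ne_zero _ (by norm_num)
  apply mul_left_cancel₀ h2
  have e1 : ∀ v : Fin m → ZMod 2, 2 ^ m * (G (y0 + emb e v) * sgn (ip z (y0 + emb e v))) =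
      ∑ t, F (z + t) * sgn (ip t y0) * sgn (ip t (emb e v)) := by
    intro v
    rw [← mul_assoc, ← h.eq, sum_mul]
    rw [← Equiv.sum_comp (Equiv.addLeft z)]
    refine sum_congr rfl fun t _ => ?_
    simp only [Equiv.coe_addLeft]
    rw [mul_assoc, mul_assoc, ← sgn_add, ← sgn_add]
    congr 2
    rw [ip_add_left, ip_add_right z, ip_add_right t]
    have h1 := zmod2_add_self (ip z y0)
    have h2 := zmod2_add_self (ip z (emb e v))
    linear_combination h1 + h2
  rw [mul_sum]
  simp only [e1]
  rw [sum_comm]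
  have e2 : ∀ t : Vec m, ∑ v, F (z + t) * sgn (ip t y0) * sgn (ip t (emb e v)) =
      F (z + t) * sgn (ip t y0) *
        if (fun i => t (e (i, 0)) + t (e (i, 1))) = (0 : Fin m → ZMod 2) then 2 ^ m else 0 := by
    intro t
    rw [← mul_sum]
    congr 1
    rw [← sum_sgn_ip]
    exact sum_congr rfl fun v _ => by rw [ip_emb]
  simp only [e2]
  rw [mul_sum]
  have e3 : ∀ v, 2 ^ m * (F (z + emb e v) * sgn (ip (emb e v) y0)) =
      F (z + emb e v) * sgn (ip (emb e v) y0) *
        if (fun i => emb e v (e (i, 0)) + emb e v (e (i, 1))) = (0 : Fin m → ZMod 2)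
          then 2 ^ m else 0 := by
    intro v
    rw [if_pos]
    · ring
    · funext i
      rw [emb_apply, emb_apply]
      exact zmod2_add_self _
  simp only [e3]
  symm
  rw [← sum_image (s := univ) (g := emb e)
    (f := fun t => F (z + t) * sgn (ip t y0) *
        if (fun i => t (e (i, 0)) + t (e (i, 1))) = (0 : Fin m → ZMod 2) then 2 ^ m else 0)
    (fun v _ v' _ hv => emb_injective e hv)]
  apply sum_subset (subset_univ _)
  intro t _ ht
  rw [if_neg, mul_zero]
  intro h0
  apply ht
  rw [mem_image]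
  refine ⟨fun i => t (e (i, 0)), mem_univ _, ?_⟩
  funext i
  obtain ⟨⟨j, s⟩, rfl⟩ := e.surjective i
  rw [emb_apply]
  have hj := congrFun h0 j
  simp only [Pi.zero_apply] at hj
  have hs : s = 0 ∨ s = 1 := by
    revert s; decide
  rcases hs with rfl | rfl
  · rfl
  · exact CharTwo.add_eq_zero.1 hj

theorem key {F G : Vec m → ℤ} (h : Dual F G) (e : Fin m × Fin 2 ≃ Fin (2 * m))
    (y0 z : Vec m) {ε : ℤ} (hε : ε = 1 ∨ ε = -1)
    (hc : ∀ v, G (y0 + emb e v) * sgn (ip z (y0 + emb e v)) = ε) : F z = ε := by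
  have h1 := poisson h e y0 z
  simp only [hc] at h1
  have h2 : ∑ v : Fin m → ZMod 2, (1 - ε * (F (z + emb e v) * sgn (ip (emb e v) y0))) = 0 := by
    rw [sum_sub_distrib, ← mul_sum, ← h1, sum_const, sum_const, nsmul_eq_mul, nsmul_eq_mul]
    have hsq := sq_of_pm hε
    linear_combination (-((univ : Finset (Fin m → ZMod 2)).card : ℤ)) * hsq
  have h3 : ∀ v ∈ (univ : Finset (Fin m → ZMod 2)),
      0 ≤ 1 - ε * (F (z + emb e v) * sgn (ip (emb e v) y0)) := by
    intro v _
    rcases mul_pm hε (mul_pm (h.F_pm (z + emb e v)) (sgn_cases (ip (emb e v) y0))) with h | h <;>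
      rw [h] <;> norm_num
  have h4 := (sum_eq_zero_iff_of_nonneg h3).1 h2 0 (mem_univ _)
  have h5 : emb e 0 = 0 := rfl
  have h6 : ip (0 : Vec m) y0 = 0 := by simp [ip]
  rw [h5, add_zero, h6, sgn_zero, mul_one] at h4
  rcases hε with rfl | rfl <;> linarith

end Poisson

/-! ### Determination of the function -/

section Determine

variable {m : ℕ}

theorem wt_eq_card {n : ℕ} (x : Fin n → ZMod 2) : wt x = Fintype.card {i // x i = 1} := by
  unfold wt
  rw [Fintype.card_subtype, card_filter]
  refine sum_congr rfl fun i _ => ?_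
  rcases zmod2_cases (x i) with h | h <;> rw [h] <;> decide

theorem exists_matching (x : Vec m) (s : Fin m × Fin 2 → ZMod 2)
    (h : wt x = ∑ i : Fin m, ((s (i, 0)).val + (s (i, 1)).val)) :
    ∃ e : Fin m × Fin 2 ≃ Fin (2 * m), ∀ p, x (e p) = s p := by
  have h1 : ∑ i : Fin m, ((s (i, 0)).val + (s (i, 1)).val) = Fintype.card {p // s p = 1} := by
    rw [Fintype.card_subtype, card_filter, Fintype.sum_prod_type]
    refine sum_congr rfl fun i _ => ?_
    rw [Fin.sum_univ_two]
    rcases zmod2_cases (s (i, 0)) with h | h <;> rcases zmod2_cases (s (i, 1)) with h' | h' <;>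
      rw [h, h'] <;> decide
  have h2 : Fintype.card {p // s p = 1} = Fintype.card {i // x i = 1} := by
    rw [← h1, ← h, wt_eq_card]
  have h3 : Fintype.card {p // ¬ s p = 1} = Fintype.card {i // ¬ x i = 1} := by
    rw [Fintype.card_subtype_compl, Fintype.card_subtype_compl, h2]
    simp [mul_comm]
  obtain ⟨e1⟩ := Fintype.card_eq.1 h2
  obtain ⟨e2⟩ := Fintype.card_eq.1 h3
  refine ⟨(Equiv.sumCompl (fun p => s p = 1)).symm.trans
    ((Equiv.sumCongr e1 e2).trans (Equiv.sumCompl (fun i => x i = 1))), fun p => ?_⟩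
  by_cases hp : s p = 1
  · have : (Equiv.sumCompl (fun p => s p = 1)).symm p = Sum.inl ⟨p, hp⟩ :=
      Equiv.sumCompl_symm_apply_of_pos (p := fun p => s p = 1) hp
    simp only [Equiv.trans_apply, this, Equiv.sumCongr_apply, Sum.map_inl,
      Equiv.sumCompl_apply_inl]
    rw [(e1 ⟨p, hp⟩).2, hp]
  · have : (Equiv.sumCompl (fun p => s p = 1)).symm p = Sum.inr ⟨p, hp⟩ :=
      Equiv.sumCompl_symm_apply_of_neg (p := fun p => s p = 1) hp
    simp only [Equiv.trans_apply, this, Equiv.sumCongr_apply, Sum.map_inr,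
      Equiv.sumCompl_apply_inr]
    rw [(zmod2_cases _).resolve_right (e2 ⟨p, hp⟩).2, (zmod2_cases _).resolve_right hp]

theorem sum_ite_lt (m r : ℕ) (h : r ≤ m) :
    ∑ i : Fin m, (if i.val < r then (1 : ℕ) else 0) = r := by
  rw [Fin.sum_univ_eq_sum_range (fun i => if i < r then (1 : ℕ) else 0) m, ← card_filter]
  have : (range m).filter (fun i => i < r) = range r := by
    ext i; simp only [mem_filter, mem_range]; omega
  rw [this, card_range]

theorem sum_ite_lt' (m r : ℕ) (h : r ≤ m) :
    ∑ i : Fin m, (if i.val < r then (1 : ZMod 2) else 0) = (r : ZMod 2) := by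
  have := congrArg (fun t : ℕ => (t : ZMod 2)) (sum_ite_lt m r h)
  rw [← this, Nat.cast_sum]
  refine sum_congr rfl fun i _ => ?_
  split_ifs <;> simp

theorem wt_pairs (e : Fin m × Fin 2 ≃ Fin (2 * m)) (y : Vec m) :
    wt y = ∑ i : Fin m, ((y (e (i, 0))).val + (y (e (i, 1))).val) := by
  unfold wt; rw [sum_pairs e]

theorem ip_pairs (e : Fin m × Fin 2 ≃ Fin (2 * m)) (x y : Vec m) :
    ip x y = ∑ i : Fin m, (x (e (i, 0)) * y (e (i, 0)) + x (e (i, 1)) * y (e (i, 1))) := by
  unfold ip; rw [sum_pairs e]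

theorem wt_le (x : Vec m) : wt x ≤ 2 * m := by
  rw [wt_eq_card]
  have := Fintype.card_subtype_le (fun i => x i = 1)
  simpa using this

theorem wt_even {x : Vec m} (h : par x = 0) : ∃ r, r ≤ m ∧ wt x = 2 * r := by
  rw [← wt_cast, ZMod.natCast_eq_zero_iff] at h
  obtain ⟨r, hr⟩ := h
  exact ⟨r, by have := wt_le x; omega, hr⟩

theorem wt_odd {x : Vec m} (h : par x = 1) : ∃ r, r + 1 ≤ m ∧ wt x = 2 * r + 1 := by
  have h0 : ¬ (2 ∣ wt x) := by
    rw [← ZMod.natCast_eq_zero_iff, wt_cast, h]; decide
  refine ⟨wt x / 2, ?_, ?_⟩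
  · have := wt_le x; omega
  · omega

/-- Values on even vectors, when `G = 1` on the middle slice. -/
theorem even_case {F G : Vec m → ℤ} (h : Dual F G) (hmid : ∀ y, wt y = m → G y = 1) (x : Vec m)
    (hx : par x = 0) : F x = sgn (Q univ x) := by
  obtain ⟨r, hr, hw⟩ := wt_even hx
  rw [Q_univ_of_wt_even hw]
  obtain ⟨e, he⟩ := exists_matching x (fun p => if p.1.val < r then 1 else 0) (by
    rw [hw]
    have : ∀ i : Fin m, ((if i.val < r then (1 : ZMod 2) else 0).val +
        (if i.val < r then (1 : ZMod 2) else 0).val) = 2 * (if i.val < r then 1 else 0) := by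
      intro i; split_ifs <;> decide
    simp only [this]
    rw [← mul_sum, sum_ite_lt m r hr])
  refine key h e (fun i => if (e.symm i).2 = 0 then 1 else 0) x (sgn_cases _) fun v => ?_
  have hy0 : ∀ (i : Fin m),
      ((fun i => if (e.symm i).2 = 0 then (1 : ZMod 2) else 0) + emb e v) (e (i, 0)) =
        1 + v i := by
    intro i
    rw [Pi.add_apply, emb_apply]
    simp
  have hy1 : ∀ (i : Fin m),
      ((fun i => if (e.symm i).2 = 0 then (1 : ZMod 2) else 0) + emb e v) (e (i, 1)) =
        v i := by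
    intro i
    rw [Pi.add_apply, emb_apply]
    simp
  rw [hmid, one_mul]
  · congr 1
    rw [ip_pairs e]
    simp only [he, hy0, hy1]
    rw [← sum_ite_lt' m r hr]
    refine sum_congr rfl fun i _ => ?_
    rcases zmod2_cases (v i) with h' | h' <;> rw [h'] <;> split_ifs <;> decide
  · rw [wt_pairs e]
    simp only [hy0, hy1]
    have : ∀ i : Fin m, (1 + v i).val + (v i).val = 1 := by
      intro i
      rcases zmod2_cases (v i) with h' | h' <;> rw [h'] <;> decide
    simp only [this]
    simp

theorem wt_one : wt (1 : Vec m) = 2 * m := by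
  unfold wt
  have : ∀ i : Fin (2 * m), ((1 : Vec m) i).val = 1 := fun i => by
    rw [Pi.one_apply]; decide
  simp only [this]
  simp

theorem wt_add_one (y : Vec m) : wt (y + 1) + wt y = 2 * m := by
  unfold wt
  rw [← sum_add_distrib]
  have : ∀ i : Fin (2 * m), ((y + 1) i).val + (y i).val = 1 := fun i => by
    rw [Pi.add_apply, Pi.one_apply]
    rcases zmod2_cases (y i) with h | h <;> rw [h] <;> decide
  simp only [this]
  simp

theorem par_one : par (1 : Vec m) = 0 := by
  rw [← wt_cast, wt_one]
  push_cast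
  have h5 : (2 : ZMod 2) = 0 := by decide
  rw [h5, zero_mul]

/-- Complementary vectors of weight `m - 1`, `m + 1` (and the same parity). -/
theorem compl_case {F G : Vec m → ℤ} (h : Dual F G)
    (heven : ∀ x, par x = 0 → F x = sgn (Q univ x)) (y : Vec m)
    (hy : (m : ZMod 2) + par y = 1) : G (y + 1) = -G y := by
  have h2 : (2 : ℤ) ^ m ≠ 0 := pow_ne_zero _ (by norm_num)
  have e1 : 2 ^ m * (G y + G (y + 1)) =
      ∑ x, F x * sgn (ip x y) * (1 + sgn (par x)) := by
    rw [mul_add, ← h.eq, ← h.eq, ← sum_add_distrib]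
    refine sum_congr rfl fun x _ => ?_
    rw [ip_add_right, sgn_add, ip_one_right]
    ring
  have e2 : ∑ x, F x * sgn (ip x y) * (1 + sgn (par x)) =
      -∑ x, F x * sgn (ip x y) * (1 + sgn (par x)) := by
    conv_lhs => rw [← Equiv.sum_comp (Equiv.addRight (1 : Vec m))]
    rw [← sum_neg_distrib]
    refine sum_congr rfl fun x _ => ?_
    simp only [Equiv.coe_addRight]
    rw [par_add, par_one, add_zero]
    rcases zmod2_cases (par x) with hx | hx
    · have hx1 : par (x + 1) = 0 := by rw [par_add, par_one, add_zero, hx]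
      rw [heven x hx, heven (x + 1) hx1, Q_univ_add, ip_add_left, ip_comm 1 y, ip_one_right,
        ip_one_right, par_one, hx, Q_univ_of_wt_even wt_one]
      have : sgn (Q univ x + (m : ZMod 2) + (0 * 0 + 0)) * sgn (ip x y + par y) =
          sgn (Q univ x) * sgn (ip x y) * sgn ((m : ZMod 2) + par y) := by
        rw [← sgn_add, ← sgn_add, ← sgn_add]
        congr 1
        ring
      rw [this, hy, sgn_one]
      ring
    · rw [hx, sgn_one]
      ring
  have e3 : 2 ^ m * (G y + G (y + 1)) = 0 := by
    rw [e1]; linarith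
  have e4 := (mul_eq_zero.1 e3).resolve_left h2
  linarith

theorem low_slice {k : ℕ} {F G : Vec (k + 1) → ℤ} (h : Dual F G)
    (heven : ∀ x, par x = 0 → F x = sgn (Q univ x)) {l' : Vec (k + 1)} {e' : ZMod 2}
    (hlow : ∀ y, wt y = k → G y = sgn e' * sgn (ip l' y))
    (e : Fin (k + 1) × Fin 2 ≃ Fin (2 * (k + 1))) (x : Vec (k + 1))
    (s : Fin (k + 1) × Fin 2 → ZMod 2) (he : ∀ p, x (e p) = s p)
    (hs : ∀ i : Fin k, s (i.castSucc, 0) = s (i.castSucc, 1))
    (hl : s (Fin.last k, 0) + s (Fin.last k, 1) = 1 + par l') :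
    F (l' + x) = sgn (e' + ∑ i : Fin k, s (i.castSucc, 0)) := by
  refine key h e (fun i => if (e.symm i).2 = 0 ∧ (e.symm i).1 ≠ Fin.last k then 1 else 0)
    (l' + x) (sgn_cases _) fun v => ?_
  have hy0 : ∀ (i : Fin k),
      ((fun i => if (e.symm i).2 = 0 ∧ (e.symm i).1 ≠ Fin.last k then (1 : ZMod 2) else 0) +
        emb e v) (e (i.castSucc, 0)) = 1 + v i.castSucc := by
    intro i
    rw [Pi.add_apply, emb_apply]
    simp [Fin.castSucc_ne_last]
  have hy1 : ∀ (i : Fin k),
      ((fun i => if (e.symm i).2 = 0 ∧ (e.symm i).1 ≠ Fin.last k then (1 : ZMod 2) else 0) +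
        emb e v) (e (i.castSucc, 1)) = v i.castSucc := by
    intro i
    rw [Pi.add_apply, emb_apply]
    simp
  have hy2 : ∀ (t : Fin 2),
      ((fun i => if (e.symm i).2 = 0 ∧ (e.symm i).1 ≠ Fin.last k then (1 : ZMod 2) else 0) +
        emb e v) (e (Fin.last k, t)) = v (Fin.last k) := by
    intro t
    rw [Pi.add_apply, emb_apply]
    simp
  generalize (fun i => if (e.symm i).2 = 0 ∧ (e.symm i).1 ≠ Fin.last k then (1 : ZMod 2) else 0) +
        emb e v = y at hy0 hy1 hy2
  have hwt : wt y = k + 2 * (v (Fin.last k)).val := by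
    rw [wt_pairs e, Fin.sum_univ_castSucc]
    simp only [hy0, hy1, hy2]
    have : ∀ i : Fin k, (1 + v i.castSucc).val + (v i.castSucc).val = 1 := by
      intro i
      rcases zmod2_cases (v i.castSucc) with h' | h' <;> rw [h'] <;> decide
    simp only [this]
    simp
    ring
  have hip : ip x y = ∑ i : Fin k, s (i.castSucc, 0) + (1 + par l') * v (Fin.last k) := by
    rw [ip_pairs e, Fin.sum_univ_castSucc]
    simp only [hy0, hy1, hy2, he]
    rw [← hl]
    congr 1
    · refine sum_congr rfl fun i _ => ?_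
      rw [← hs]
      have := zmod2_add_self (s (i.castSucc, 0) * v i.castSucc)
      linear_combination this
    · ring
  rcases zmod2_cases (v (Fin.last k)) with hv | hv
  · rw [hv] at hwt hip
    have hwt' : wt y = k := hwt
    rw [hlow y hwt', ip_add_left, sgn_add, hip, mul_zero, add_zero, sgn_add]
    have := sgn_mul_self (ip l' y)
    linear_combination (sgn e' * sgn (∑ i : Fin k, s (i.castSucc, 0))) * this
  · rw [hv] at hwt hip
    have hwt' : wt y = k + 2 := hwt
    have hw1 : wt (y + 1) = k := by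
      have := wt_add_one y
      omega
    have hc : ((k + 1 : ℕ) : ZMod 2) + par (y + 1) = 1 := by
      rw [← wt_cast, hw1]
      push_cast
      have := zmod2_add_self (k : ZMod 2)
      linear_combination this
    have h1 := compl_case h heven (y + 1) hc
    have hyy : y + 1 + 1 = y := by
      rw [add_assoc, vec_add_self, add_zero]
    rw [hyy, hlow (y + 1) hw1, ip_add_right, ip_one_right] at h1
    rw [h1, ip_add_left, hip, mul_one]
    simp only [sgn_add, sgn_one]
    have a1 := sgn_mul_self (ip l' y)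
    have a2 := sgn_mul_self (par l')
    linear_combination (sgn e' * sgn (∑ i : Fin k, s (i.castSucc, 0)) *
      (sgn (par l') * sgn (par l'))) * a1 +
      (sgn e' * sgn (∑ i : Fin k, s (i.castSucc, 0))) * a2

theorem par_low {k : ℕ} (hk : 1 ≤ k) {F G : Vec (k + 1) → ℤ} (h : Dual F G)
    (heven : ∀ x, par x = 0 → F x = sgn (Q univ x)) {l' : Vec (k + 1)} {e' : ZMod 2}
    (hlow : ∀ y, wt y = k → G y = sgn e' * sgn (ip l' y)) : par l' = 0 := by
  by_contra hpar
  have hp1 : par l' = 1 := (zmod2_cases _).resolve_left hpar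
  let x : Vec (k + 1) := fun i => if i.val < 2 then 1 else 0
  have hwx : wt x = 2 := by
    have h1 := sum_ite_lt (2 * (k + 1)) 2 (by omega)
    refine Eq.trans ?_ h1
    unfold wt
    refine sum_congr rfl fun i _ => ?_
    simp only [x]
    split_ifs <;> decide
  -- the matching with `x` the last pair
  obtain ⟨eA, hA⟩ := exists_matching x (fun p => if p.1 = Fin.last k then 1 else 0) (by
    rw [hwx, Fin.sum_univ_castSucc]
    simp only [Fin.castSucc_ne_last, if_false, if_true]
    rw [sum_eq_zero (fun i _ => by decide)]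
    decide)
  obtain ⟨eB, hB⟩ := exists_matching x (fun p => if p.1 = 0 then 1 else 0) (by
    rw [hwx, Fin.sum_univ_succ]
    simp only [Fin.succ_ne_zero, if_false, if_true]
    rw [sum_eq_zero (fun i _ => by decide)]
    decide)
  have h1 := low_slice h heven hlow eA x _ hA (fun i => rfl) (by
    rw [hp1]; simp only [if_true])
  have h2 := low_slice h heven hlow eB x _ hB (fun i => rfl) (by
    rw [hp1]
    exact (zmod2_add_self _).trans (by decide))
  rw [h1] at h2
  have h3 := sgn_inj h2
  have h4 : ∑ i : Fin k, (if (i.castSucc : Fin (k + 1)) = Fin.last k then (1 : ZMod 2) else 0)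
      = 0 := sum_eq_zero fun i _ => by simp [Fin.castSucc_ne_last]
  have h5 : ∑ i : Fin k, (if (i.castSucc : Fin (k + 1)) = 0 then (1 : ZMod 2) else 0) = 1 := by
    rw [sum_eq_single (⟨0, hk⟩ : Fin k)]
    · simp
    · intro b _ hb
      rw [if_neg]
      intro hb'
      apply hb
      apply Fin.ext
      have := congrArg Fin.val hb'
      simpa using this
    · intro h; exact absurd (mem_univ _) h
  rw [h4, h5] at h3
  have h6 : (0 : ZMod 2) = 1 := by linear_combination h3
  exact absurd h6 (by decide)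

theorem odd_case {k : ℕ} {F G : Vec (k + 1) → ℤ} (h : Dual F G)
    (heven : ∀ x, par x = 0 → F x = sgn (Q univ x)) {l' : Vec (k + 1)} {e' : ZMod 2}
    (hlow : ∀ y, wt y = k → G y = sgn e' * sgn (ip l' y)) (hpar : par l' = 0)
    (x : Vec (k + 1)) (hx : par x = 1) : F (l' + x) = sgn (e' + Q univ x) := by
  obtain ⟨r, hr, hw⟩ := wt_odd hx
  rw [Q_univ_of_wt_odd hw]
  obtain ⟨e, he⟩ := exists_matching x
    (fun p => if p.1.val < r ∨ (p.1 = Fin.last k ∧ p.2 = 0) then 1 else 0) (by
    rw [hw, Fin.sum_univ_castSucc]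
    have h1 : ∀ i : Fin k, ((if i.castSucc.val < r ∨ (i.castSucc = Fin.last k ∧ (0 : Fin 2) = 0)
        then (1 : ZMod 2) else 0).val +
        (if i.castSucc.val < r ∨ (i.castSucc = Fin.last k ∧ (1 : Fin 2) = 0)
        then (1 : ZMod 2) else 0).val) = 2 * (if i.val < r then 1 else 0) := by
      intro i
      simp only [Fin.castSucc_ne_last, false_and, or_false, Fin.val_castSucc]
      split_ifs <;> decide
    refine Eq.symm ((congrArg₂ (· + ·) (sum_congr rfl (fun i _ => h1 i)) rfl).trans ?_)
    rw [← mul_sum, sum_ite_lt k r (by omega)]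
    have h2 : ¬ ((Fin.last k).val < r) := by
      rw [Fin.val_last]; omega
    simp only [h2, false_or, true_and]
    rfl)
  have h1 := low_slice h heven hlow e x _ he
    (fun i => by simp [Fin.castSucc_ne_last])
    (by
      have h2 : ¬ ((Fin.last k).val < r) := by
        rw [Fin.val_last]; omega
      rw [hpar]
      simp only [h2, false_or, true_and]
      decide)
  rw [h1]
  congr 2
  rw [← sum_ite_lt' k r (by omega)]
  refine sum_congr rfl fun i _ => ?_
  simp [Fin.castSucc_ne_last]

end Determine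

/-! ### The forward direction -/

section Forward

variable {m : ℕ}

theorem explicit_of_values {m : ℕ} (f : Vec m → ZMod 2) (l l' : Vec m) (e e' : ZMod 2)
    (hpar : par l' = 0) (h0 : ∀ x, par x = 0 → f (l + x) = e + Q univ x)
    (h1 : ∀ x, par x = 1 → f (l + (l' + x)) = e + (e' + Q univ x)) : IsExplicit m f := by
  classical
  let A : Finset (Fin (2 * m)) := univ.filter (fun i => l' i = 1)
  refine ⟨A, fun i => (1 + par l) * l' i + (par l + (e' + Q univ l') + ip l' l) + l i,
    Q univ l + e + par l * (e' + Q univ l') + par l * ip l' l, ?_, ?_⟩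
  · have h2 : A.card = wt l' := by rw [wt_eq_card, Fintype.card_subtype]
    have h3 : ((A.card : ℕ) : ZMod 2) = 0 := by rw [h2, wt_cast, hpar]
    exact (ZMod.natCast_eq_zero_iff_even).1 h3
  · intro x
    have hA : ∀ z : Vec m, parOn A z = ip l' z := by
      intro z
      unfold parOn ip
      refine sum_congr rfl fun i _ => ?_
      rcases zmod2_cases (l' i) with h | h <;> simp [A, h]
    have hAc : parOn Aᶜ x = par x + ip l' x := by
      have h4 := parOn_compl A x
      rw [hA] at h4
      have h5 := zmod2_add_self (ip l' x)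
      linear_combination h4 - h5
    have hb : ∑ i, ((1 + par l) * l' i + (par l + (e' + Q univ l') + ip l' l) + l i) * x i =
        (1 + par l) * ip l' x + (par l + (e' + Q univ l') + ip l' l) * par x + ip l x := by
      have q1 : (1 + par l) * ip l' x = ∑ i, (1 + par l) * (l' i * x i) := by
        unfold ip; rw [mul_sum]
      have q2 : ∀ K : ZMod 2, K * par x = ∑ i, K * x i := by
        intro K; unfold par; rw [mul_sum]
      have q3 : ip l x = ∑ i, l i * x i := rfl
      rw [q1, q2, q3, ← sum_add_distrib, ← sum_add_distrib]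
      refine sum_congr rfl fun i _ => ?_
      ring
    rw [hb, Q_eq A x, hA, hAc]
    have hmm := zmod2_mul_self (ip l' x)
    have haa := zmod2_add_self (ip l' x)
    have hfx : f x = e + Q univ (l + x) + par (l + x) * (e' + Q univ l' + ip l' (l + x)) := by
      rcases zmod2_cases (par (l + x)) with hp | hp
      · have := h0 (l + x) hp
        rw [vec_add_cancel] at this
        rw [this, hp]; ring
      · have h2 : par (l' + (l + x)) = 1 := by rw [par_add, hpar, hp, zero_add]
        have := h1 (l' + (l + x)) h2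
        rw [vec_add_cancel, vec_add_cancel, Q_univ_add, hpar] at this
        rw [this, hp]; ring
    rw [hfx, Q_univ_add, par_add, ip_add_right]
    linear_combination (-1 : ZMod 2) * hmm - haa

theorem explicit_of_dual {k : ℕ} (f : Vec (k + 1) → ZMod 2) (G : Vec (k + 1) → ℤ)
    (h : Dual (fun x => sgn (f x)) G) (hsw : SwapCond G) : IsExplicit (k + 1) f := by
  have i0 : Fin (2 * (k + 1)) := ⟨0, by omega⟩
  obtain ⟨l, e, hl⟩ := slice h.G_pm hsw i0 (k + 1)
  obtain ⟨l2, e2, hl2⟩ := slice h.G_pm hsw i0 k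
  let F1 : Vec (k + 1) → ℤ := fun x => sgn e * sgn (f (l + x))
  let G1 : Vec (k + 1) → ℤ := fun y => sgn e * sgn (ip l y) * G y
  have hD : Dual F1 G1 := by
    refine ⟨fun x => mul_pm (sgn_cases _) (sgn_cases _),
      fun y => mul_pm (mul_pm (sgn_cases _) (sgn_cases _)) (h.G_pm y), fun y => ?_⟩
    have h1 := h.eq y
    have h2 : ∑ x, F1 x * sgn (ip x y) = sgn e * sgn (ip l y) * ∑ x, sgn (f x) * sgn (ip x y) := by
      rw [mul_sum, ← Equiv.sum_comp (Equiv.addLeft l) (fun x => sgn e * sgn (ip l y) *
        (sgn (f x) * sgn (ip x y)))]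
      refine sum_congr rfl fun x _ => ?_
      simp only [Equiv.coe_addLeft, F1]
      rw [ip_add_left, sgn_add]
      have h3 := sgn_mul_self (ip l y)
      linear_combination (-sgn e * sgn (f (l + x)) * sgn (ip x y)) * h3
    rw [h2, h1]
    simp only [G1]
    ring
  have hmid : ∀ y, wt y = k + 1 → G1 y = 1 := by
    intro y hy
    simp only [G1]
    rw [hl y hy]
    have h1 := sgn_mul_self e
    have h2 := sgn_mul_self (ip l y)
    linear_combination h1 * (sgn (ip l y) * sgn (ip l y)) + h2
  have heven := even_case hD hmid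
  -- the low slice
  have hlow0 : ∀ y, wt y = k → G1 y = sgn (e + e2) * sgn (ip (l + l2) y) := by
    intro y hy
    simp only [G1]
    rw [hl2 y hy, sgn_add, ip_add_left, sgn_add]
    ring
  obtain ⟨l', hpar, hlow⟩ : ∃ l' : Vec (k + 1), par l' = 0 ∧
      ∀ y, wt y = k → G1 y = sgn (e + e2) * sgn (ip l' y) := by
    rcases Nat.eq_zero_or_pos k with hk | hk
    · refine ⟨0, by simp [par], fun y hy => ?_⟩
      have hy0 : y = 0 := by
        funext i
        have h1 : (y i).val ≤ wt y := by
          unfold wt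
          exact single_le_sum (f := fun i => (y i).val) (fun _ _ => Nat.zero_le _) (mem_univ i)
        rw [hy, hk] at h1
        exact (ZMod.val_eq_zero _).1 (Nat.le_zero.1 h1)
      rw [hlow0 y hy, hy0]
      simp [ip]
    · exact ⟨l + l2, par_low hk hD heven hlow0, hlow0⟩
  have hodd := odd_case hD heven hlow hpar
  refine explicit_of_values f l l' e (e + e2) hpar ?_ ?_
  · intro x hx
    have h1 : sgn e * sgn (f (l + x)) = sgn (Q univ x) := heven x hx
    apply sgn_inj
    rw [sgn_add, ← h1, ← mul_assoc, sgn_mul_self, one_mul]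
  · intro x hx
    have h1 : sgn e * sgn (f (l + (l' + x))) = sgn (e + e2 + Q univ x) := hodd x hx
    apply sgn_inj
    rw [sgn_add, ← h1, ← mul_assoc, sgn_mul_self, one_mul]

/-! ### Extraction of the hypotheses from `IsKBent` -/

theorem form_eq {m : ℕ} (k : ℕ) (x y : Vec m) :
    form k x y = ip x y +
      (Q univ (fun i : Fin m => if i.val < k then u i x * u i y else 0) +
        par (fun i : Fin m => if i.val < k then u i x * u i y else 0)) := by
  unfold form
  congr 1
  have h : ∀ i j : Fin m, (if i ≤ j ∧ j.val < k then u i x * u j x * u i y * u j y else 0) =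
      (if i < j ∧ (i ∈ (univ : Finset (Fin m)) ↔ j ∈ (univ : Finset (Fin m))) then
        (if i.val < k then u i x * u i y else 0) * (if j.val < k then u j x * u j y else 0)
        else 0) + (if i = j then (if i.val < k then u i x * u i y else 0) else 0) := by
    intro i j
    rcases lt_trichotomy i j with hij | hij | hij
    · have h1 : i ≤ j := hij.le
      have h2 : i ≠ j := hij.ne
      have h3 : i.val < j.val := hij
      by_cases hj : j.val < k
      · have hi : i.val < k := by omega
        simp only [h1, hij, h2, hj, hi, mem_univ, and_self, if_true, if_false, add_zero]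
        ring
      · simp [h1, hij, h2, hj]
    · subst hij
      by_cases hi : i.val < k
      · simp only [le_refl, hi, and_self, if_true, lt_irrefl, false_and, if_false, zero_add]
        have := zmod2_mul_self (u i x * u i y)
        linear_combination this
      · simp [hi]
    · have h1 : ¬ i ≤ j := not_le.2 hij
      have h2 : i ≠ j := hij.ne'
      have h3 : ¬ i < j := not_lt.2 hij.le
      simp [h1, h2, h3]
  simp only [h, sum_add_distrib]
  unfold Q par
  congr 1
  refine sum_congr rfl fun i _ => ?_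
  rw [sum_ite_eq]
  simp

theorem walsh_perm {m : ℕ} (k : ℕ) (f : Vec m → ZMod 2) (σ : Equiv.Perm (Fin (2 * m)))
    (y : Vec m) :
    walsh k (fun x => f (fun i => x (σ⁻¹ i))) y =
      ∑ z : Vec m, sgn (f z + form k (fun i => z (σ i)) y) := by
  unfold walsh
  rw [← Equiv.sum_comp (Equiv.arrowCongr σ⁻¹ (Equiv.refl (ZMod 2)))]
  refine sum_congr rfl fun z _ => ?_
  have h1 : (Equiv.arrowCongr σ⁻¹ (Equiv.refl (ZMod 2))) z = fun i => z (σ i) := by
    funext i
    simp only [Equiv.arrowCongr_apply, Function.comp_apply, Equiv.refl_apply]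
    rfl
  rw [h1]
  have h2 : (fun i => (fun j => z (σ j)) (σ⁻¹ i)) = z := by
    funext i
    simp
  change sgn (f (fun i => (fun j => z (σ j)) (σ⁻¹ i)) + _) = _
  rw [h2]

theorem exists_perm4 {n : ℕ} (p0 p1 p2 p3 a b c d : Fin n) (h01 : p0 ≠ p1) (h02 : p0 ≠ p2)
    (h03 : p0 ≠ p3) (h12 : p1 ≠ p2) (h13 : p1 ≠ p3) (h23 : p2 ≠ p3) (hab : a ≠ b) (hac : a ≠ c)
    (had : a ≠ d) (hbc : b ≠ c) (hbd : b ≠ d) (hcd : c ≠ d) :
    ∃ σ : Equiv.Perm (Fin n), σ p0 = a ∧ σ p1 = b ∧ σ p2 = c ∧ σ p3 = d := by
  obtain ⟨σ1, h1⟩ : ∃ σ : Equiv.Perm (Fin n), σ p0 = a := ⟨Equiv.swap p0 a, by simp⟩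
  obtain ⟨σ2, h2, h2'⟩ : ∃ σ : Equiv.Perm (Fin n), σ p0 = a ∧ σ p1 = b := by
    refine ⟨σ1 * Equiv.swap p1 (σ1⁻¹ b), ?_, by simp⟩
    have h : p0 ≠ σ1⁻¹ b := by
      intro h
      apply hab
      rw [← h1, h]; simp
    rw [Equiv.Perm.mul_apply, Equiv.swap_apply_of_ne_of_ne h01 h, h1]
  obtain ⟨σ3, h3, h3', h3''⟩ : ∃ σ : Equiv.Perm (Fin n), σ p0 = a ∧ σ p1 = b ∧ σ p2 = c := by
    have ha : p0 ≠ σ2⁻¹ c := by
      intro h
      apply hac
      rw [← h2, h]; simp
    have hb : p1 ≠ σ2⁻¹ c := by
      intro h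
      apply hbc
      rw [← h2', h]; simp
    refine ⟨σ2 * Equiv.swap p2 (σ2⁻¹ c), ?_, ?_, by simp⟩
    · rw [Equiv.Perm.mul_apply, Equiv.swap_apply_of_ne_of_ne h02 ha, h2]
    · rw [Equiv.Perm.mul_apply, Equiv.swap_apply_of_ne_of_ne h12 hb, h2']
  have ha : p0 ≠ σ3⁻¹ d := by
    intro h
    apply had
    rw [← h3, h]; simp
  have hb : p1 ≠ σ3⁻¹ d := by
    intro h
    apply hbd
    rw [← h3', h]; simp
  have hc : p2 ≠ σ3⁻¹ d := by
    intro h
    apply hcd
    rw [← h3'', h]; simp
  refine ⟨σ3 * Equiv.swap p3 (σ3⁻¹ d), ?_, ?_, ?_, by simp⟩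
  · rw [Equiv.Perm.mul_apply, Equiv.swap_apply_of_ne_of_ne h03 ha, h3]
  · rw [Equiv.Perm.mul_apply, Equiv.swap_apply_of_ne_of_ne h13 hb, h3']
  · rw [Equiv.Perm.mul_apply, Equiv.swap_apply_of_ne_of_ne h23 hc, h3'']

theorem Q_single {n : ℕ} (i : Fin n) (p : ZMod 2) : Q univ (Pi.single i p) = 0 := by
  unfold Q
  refine sum_eq_zero fun i' _ => sum_eq_zero fun j' _ => ?_
  split_ifs with h
  · by_cases hi : i' = i
    · have hj : j' ≠ i := by
        rintro rfl
        exact absurd (hi ▸ h.1) (lt_irrefl _)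
      rw [Pi.single_eq_of_ne hj, mul_zero]
    · rw [Pi.single_eq_of_ne hi, zero_mul]
  · rfl

theorem par_single {n : ℕ} (i : Fin n) (p : ZMod 2) : par (Pi.single i p) = p := by
  unfold par
  rw [sum_eq_single i]
  · simp
  · intro b _ hb; simp [hb]
  · intro h; exact absurd (mem_univ _) h

theorem ip_single {n : ℕ} (x : Fin n → ZMod 2) (i : Fin n) (p : ZMod 2) :
    ip x (Pi.single i p) = x i * p := by
  unfold ip
  rw [sum_eq_single i]
  · simp
  · intro b _ hb; simp [hb]
  · intro h; exact absurd (mem_univ _) h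

/-- The ordinary Walsh transform of a `k`-bent function has modulus `2^m`. -/
theorem bent_of_kbent {m k : ℕ} (hm : 1 ≤ m) (hk : 1 ≤ k) {f : Vec m → ZMod 2}
    (hf : IsKBent m k f) (y : Vec m) :
    ∑ x, sgn (f x) * sgn (ip x y) = 2 ^ m ∨ ∑ x, sgn (f x) * sgn (ip x y) = -2 ^ m := by
  let p0 : Fin (2 * m) := ⟨0, by omega⟩
  let p1 : Fin (2 * m) := ⟨1, by omega⟩
  have h01 : p0 ≠ p1 := by
    intro h
    have := congrArg Fin.val h
    simp [p0, p1] at this
  have h := hf 1 1 le_rfl hk (fun i => y (Equiv.swap p0 p1 i))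
  have h1 : walsh 1 (fun x => f (fun i => x ((1 : Equiv.Perm (Fin (2 * m))) i)))
      (fun i => y (Equiv.swap p0 p1 i)) = ∑ x, sgn (f x) * sgn (ip x y) := by
    unfold walsh
    refine sum_congr rfl fun x _ => ?_
    rw [← sgn_add]
    have h2 : form 1 x (fun i => y (Equiv.swap p0 p1 i)) = ip x y := by
      obtain ⟨m', rfl⟩ : ∃ m', m = m' + 1 := ⟨m - 1, by omega⟩
      rw [form_eq, ip_swap x y h01]
      have hU : (fun i : Fin (m' + 1) => if i.val < 1 then
          u i x * u i (fun i => y (Equiv.swap p0 p1 i)) else 0) =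
          Pi.single 0 ((x p0 + x p1) * (y p0 + y p1)) := by
        funext i
        by_cases hi : i = 0
        · subst hi
          have e0 : u (0 : Fin (m' + 1)) x = x p0 + x p1 := rfl
          have e1 : u (0 : Fin (m' + 1)) (fun i => y (Equiv.swap p0 p1 i)) = y p1 + y p0 := by
            change y (Equiv.swap p0 p1 p0) + y (Equiv.swap p0 p1 p1) = y p1 + y p0
            rw [Equiv.swap_apply_left, Equiv.swap_apply_right]
          rw [e0, e1, add_comm (y p1)]
          simp
        · have : ¬ (i.val < 1) := by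
            intro h
            exact hi (Fin.ext (by simpa using h))
          simp [hi, this]
      rw [hU]
      rw [Q_single, par_single]
      have := zmod2_add_self ((x p0 + x p1) * (y p0 + y p1))
      linear_combination this
    rw [h2]
    rfl
  rw [h1] at h
  exact h

theorem two_sgn_or (a p q : ZMod 2) :
    2 * sgn (a + (p * q + (p + q))) = -sgn a + sgn (a + p) + sgn (a + q) + sgn (a + q + p) := by
  revert a p q; decide

/-- The condition on transpositions. -/
theorem swapCond_of_kbent {m k : ℕ} (hk : 2 ≤ k) {f : Vec m → ZMod 2}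
    (hf : IsKBent m k f) {G : Vec m → ℤ} (h : Dual (fun x => sgn (f x)) G) : SwapCond G := by
  intro a b c d hab hac had hbc hbd hcd y hy1 hy2
  have hm : 4 ≤ 2 * m := by
    have h1 : ({a, b, c, d} : Finset (Fin (2 * m))).card = 4 := by
      rw [card_insert_of_notMem, card_insert_of_notMem, card_insert_of_notMem, card_singleton]
      · simpa using hcd
      · simp [hbc, hbd]
      · simp [hab, hac, had]
    have h2 := card_le_univ ({a, b, c, d} : Finset (Fin (2 * m)))
    rw [h1, Fintype.card_fin] at h2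
    exact h2
  let p0 : Fin (2 * m) := ⟨0, by omega⟩
  let p1 : Fin (2 * m) := ⟨1, by omega⟩
  let p2 : Fin (2 * m) := ⟨2, by omega⟩
  let p3 : Fin (2 * m) := ⟨3, by omega⟩
  have ne : ∀ i j : ℕ, ∀ hi : i < 2 * m, ∀ hj : j < 2 * m, i ≠ j →
      (⟨i, hi⟩ : Fin (2 * m)) ≠ ⟨j, hj⟩ := by
    intro i j hi hj hij h
    exact hij (congrArg Fin.val h)
  obtain ⟨σ, s0, s1, s2, s3⟩ := exists_perm4 p0 p1 p2 p3 a b c d
    (ne _ _ _ _ (by norm_num)) (ne _ _ _ _ (by norm_num)) (ne _ _ _ _ (by norm_num))
    (ne _ _ _ _ (by norm_num)) (ne _ _ _ _ (by norm_num)) (ne _ _ _ _ (by norm_num))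
    hab hac had hbc hbd hcd
  have hW := hf σ⁻¹ 2 (by norm_num) hk (fun i => y (σ i))
  rw [walsh_perm] at hW
  have y1 : y a + y b = 1 := by
    rcases zmod2_cases (y a) with h | h <;> rcases zmod2_cases (y b) with h' | h' <;>
      simp_all
  have y2 : y c + y d = 1 := by
    rcases zmod2_cases (y c) with h | h <;> rcases zmod2_cases (y d) with h' | h' <;>
      simp_all
  have hform : ∀ z : Vec m, form 2 (fun i => z (σ i)) (fun i => y (σ i)) =
      ip z y + ((z a + z b) * (z c + z d) + ((z a + z b) + (z c + z d))) := by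
    intro z
    obtain ⟨m', rfl⟩ : ∃ m', m = m' + 2 := ⟨m - 2, by omega⟩
    rw [form_eq]
    have hip : ip (fun i => z (σ i)) (fun i => y (σ i)) = ip z y := by
      unfold ip
      exact Equiv.sum_comp σ (fun i => z i * y i)
    rw [hip]
    congr 1
    have hU : (fun i : Fin (m' + 2) => if i.val < 2 then
        u i (fun i => z (σ i)) * u i (fun i => y (σ i)) else 0) =
        Pi.single 0 (z a + z b) + Pi.single 1 (z c + z d) := by
      funext i
      by_cases hi : i = 0
      · subst hi
        have e0 : u (0 : Fin (m' + 2)) (fun i => z (σ i)) = z a + z b := by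
          change z (σ p0) + z (σ p1) = _
          rw [s0, s1]
        have e1 : u (0 : Fin (m' + 2)) (fun i => y (σ i)) = 1 := by
          change y (σ p0) + y (σ p1) = _
          rw [s0, s1, y1]
        rw [e0, e1]
        simp
      · by_cases hi1 : i = 1
        · subst hi1
          have e0 : u (1 : Fin (m' + 2)) (fun i => z (σ i)) = z c + z d := by
            change z (σ p2) + z (σ p3) = _
            rw [s2, s3]
          have e1 : u (1 : Fin (m' + 2)) (fun i => y (σ i)) = 1 := by
            change y (σ p2) + y (σ p3) = _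
            rw [s2, s3, y2]
          rw [e0, e1]
          simp
        · have : ¬ (i.val < 2) := by
            intro h
            have h0 : i.val ≠ 0 := fun h => hi (Fin.ext (by simpa using h))
            have h1 : i.val ≠ 1 := fun h => hi1 (Fin.ext (by simpa using h))
            omega
          simp [hi, hi1, this]
    rw [hU, Q_univ_add, Q_single, Q_single, par_add, par_single, par_single, ip_single]
    simp
  -- the values at the four points
  have g1 : ∀ z : Vec m, ip z (fun i => y (Equiv.swap a b i)) = ip z y + (z a + z b) := by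
    intro z; rw [ip_swap z y hab, y1, mul_one]
  have g2 : ∀ z : Vec m, ip z (fun i => y (Equiv.swap c d i)) = ip z y + (z c + z d) := by
    intro z; rw [ip_swap z y hcd, y2, mul_one]
  have g3 : ∀ z : Vec m, ip z (fun i => y (Equiv.swap c d (Equiv.swap a b i))) =
      ip z y + (z c + z d) + (z a + z b) := by
    intro z
    rw [ip_swap z (fun i => y (Equiv.swap c d i)) hab, g2,
      Equiv.swap_apply_of_ne_of_ne hac had, Equiv.swap_apply_of_ne_of_ne hbc hbd, y1, mul_one]
  have hsum : 2 * ∑ z : Vec m, sgn (f z + form 2 (fun i => z (σ i)) (fun i => y (σ i))) =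
      2 ^ m * (-G y + G (fun i => y (Equiv.swap a b i)) + G (fun i => y (Equiv.swap c d i)) +
        G (fun i => y (Equiv.swap c d (Equiv.swap a b i)))) := by
    rw [mul_add, mul_add, mul_add, mul_neg, ← h.eq, ← h.eq, ← h.eq, ← h.eq, mul_sum,
      ← sum_neg_distrib, ← sum_add_distrib, ← sum_add_distrib, ← sum_add_distrib]
    refine sum_congr rfl fun z _ => ?_
    rw [hform, g1, g2, g3, ← add_assoc (f z), two_sgn_or]
    simp only [sgn_add]
    ring
  have hm2 : (2 : ℤ) ^ m ≠ 0 := pow_ne_zero _ (by norm_num)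
  have hX : -G y + G (fun i => y (Equiv.swap a b i)) + G (fun i => y (Equiv.swap c d i)) +
        G (fun i => y (Equiv.swap c d (Equiv.swap a b i))) = 2 ∨
      -G y + G (fun i => y (Equiv.swap a b i)) + G (fun i => y (Equiv.swap c d i)) +
        G (fun i => y (Equiv.swap c d (Equiv.swap a b i))) = -2 := by
    rcases hW with hW | hW
    · left
      rw [hW] at hsum
      apply mul_left_cancel₀ hm2
      linarith
    · right
      rw [hW] at hsum
      apply mul_left_cancel₀ hm2
      linarith
  rcases h.G_pm y with r0 | r0 <;>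
    rcases h.G_pm (fun i => y (Equiv.swap a b i)) with r1 | r1 <;>
    rcases h.G_pm (fun i => y (Equiv.swap c d i)) with r2 | r2 <;>
    rcases h.G_pm (fun i => y (Equiv.swap c d (Equiv.swap a b i))) with r3 | r3 <;>
    rw [r0, r1, r2, r3] at hX ⊢ <;> first | (exfalso; revert hX; norm_num; done) | norm_num

/-- In two variables the condition on transpositions is empty. -/
theorem swapCond_one (G : Vec 1 → ℤ) : SwapCond G := by
  intro a b c d hab hac had hbc hbd hcd
  exfalso
  have h1 : ({a, b, c, d} : Finset (Fin (2 * 1))).card = 4 := by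
    rw [card_insert_of_notMem, card_insert_of_notMem, card_insert_of_notMem, card_singleton]
    · simpa using hcd
    · simp [hbc, hbd]
    · simp [hab, hac, had]
  have h2 := card_le_univ ({a, b, c, d} : Finset (Fin (2 * 1)))
  rw [h1, Fintype.card_fin] at h2
  norm_num at h2

theorem forward {m k : ℕ} (hk : 1 ≤ k) (hkm : k ≤ m) (hk1 : k = 1 → m = 1) {f : Vec m → ZMod 2}
    (hf : IsKBent m k f) : IsExplicit m f := by
  have hm : 1 ≤ m := hk.trans hkm
  have hG : ∀ y : Vec m, ∃ g : ℤ, (g = 1 ∨ g = -1) ∧ ∑ x, sgn (f x) * sgn (ip x y) = 2 ^ m * g := by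
    intro y
    rcases bent_of_kbent hm hk hf y with h | h
    · exact ⟨1, Or.inl rfl, by rw [h, mul_one]⟩
    · exact ⟨-1, Or.inr rfl, by rw [h]; ring⟩
  choose G hG1 hG2 using hG
  have hD : Dual (fun x => sgn (f x)) G := ⟨fun x => sgn_cases _, hG1, hG2⟩
  have hsw : SwapCond G := by
    by_cases h1 : k = 1
    · have := hk1 h1
      subst this
      exact swapCond_one G
    · exact swapCond_of_kbent (by omega) hf hD
  obtain ⟨k', rfl⟩ : ∃ k', m = k' + 1 := ⟨m - 1, by omega⟩
  exact explicit_of_dual f G hD hsw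

end Forward

/-! ### The backward direction -/

section Backward

variable {m : ℕ}

/-- A function whose polar form is nondegenerate has exponential sum `± 2^m`. -/
theorem sum_of_polar (Φ : Vec m → ZMod 2) (B : Vec m → Vec m → ZMod 2)
    (hpol : ∀ x z, Φ (x + z) = Φ x + Φ z + Φ 0 + B x z)
    (hadd : ∀ x x' z, B (x + x') z = B x z + B x' z)
    (hnd : ∀ z, (∀ x, B x z = 0) → z = 0) :
    ∑ x, sgn (Φ x) = 2 ^ m ∨ ∑ x, sgn (Φ x) = -2 ^ m := by
  have h0 : ∀ x, B x 0 = 0 := by
    intro x
    have h1 := hpol x 0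
    rw [add_zero] at h1
    have h2 := zmod2_add_self (Φ 0)
    linear_combination -h1 - h2
  have inner : ∀ z, z ≠ 0 → ∑ x, sgn (B x z) = 0 := by
    intro z hz
    obtain ⟨x0, hx0⟩ : ∃ x0, B x0 z ≠ 0 := by
      by_contra hcon
      push Not at hcon
      exact hz (hnd z hcon)
    have hx1 : B x0 z = 1 := (zmod2_cases _).resolve_left hx0
    have h1 : ∑ x, sgn (B x z) = ∑ x, sgn (B (x + x0) z) :=
      (Equiv.sum_comp (Equiv.addRight x0) (fun x => sgn (B x z))).symm
    have h2 : ∑ x, sgn (B (x + x0) z) = -∑ x, sgn (B x z) := by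
      rw [← sum_neg_distrib]
      refine sum_congr rfl fun x _ => ?_
      rw [hadd, hx1, sgn_add, sgn_one]
      ring
    linarith [h1.trans h2]
  have hsq : (∑ x, sgn (Φ x)) * (∑ x, sgn (Φ x)) = 2 ^ m * 2 ^ m := by
    have h1 : (∑ x, sgn (Φ x)) * (∑ x, sgn (Φ x)) =
        ∑ z, sgn (Φ z + Φ 0) * ∑ x, sgn (B x z) := by
      rw [sum_mul_sum]
      have h2 : ∀ x, ∑ t, sgn (Φ x) * sgn (Φ t) = ∑ z, sgn (Φ z + Φ 0) * sgn (B x z) := by
        intro x
        rw [← Equiv.sum_comp (Equiv.addLeft x)]
        refine sum_congr rfl fun z _ => ?_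
        simp only [Equiv.coe_addLeft]
        rw [← sgn_add, ← sgn_add, hpol]
        congr 1
        have := zmod2_add_self (Φ x)
        linear_combination this
      simp only [h2]
      rw [sum_comm]
      refine sum_congr rfl fun z _ => ?_
      rw [mul_sum]
    rw [h1, sum_eq_single 0]
    · simp only [h0, sgn_zero, zmod2_add_self]
      simp [ZMod.card]
      ring
    · intro z _ hz
      rw [inner z hz, mul_zero]
    · intro h; exact absurd (mem_univ _) h
  exact mul_self_eq_mul_self_iff.1 hsq

/-- The vector `(c_i u_i(x))_{i < j}`, `c_i = u_i(y)`. -/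
def U (j : ℕ) (y x : Vec m) : Fin m → ZMod 2 := fun i => if i.val < j then u i x * u i y else 0

theorem u_add (i : Fin m) (x z : Vec m) : u i (x + z) = u i x + u i z := by
  unfold u; simp only [Pi.add_apply]; ring

theorem U_add (j : ℕ) (y x z : Vec m) : U j y (x + z) = U j y x + U j y z := by
  funext i
  unfold U
  rw [Pi.add_apply, u_add]
  split_ifs
  · ring
  · rw [add_zero]

theorem Q_zero {n : ℕ} (A : Finset (Fin n)) : Q A 0 = 0 := by
  unfold Q
  refine sum_eq_zero fun i _ => sum_eq_zero fun j _ => ?_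
  simp

/-- The vector `α_i` with ones exactly at the two coordinates of the `i`-th pair. -/
def al (i : Fin m) : Vec m :=
  Pi.single ⟨2 * i.val, by omega⟩ 1 + Pi.single ⟨2 * i.val + 1, by omega⟩ 1

theorem ip_al (x : Vec m) (i : Fin m) : ip x (al i) = u i x := by
  unfold al
  rw [ip_add_right, ip_single, ip_single, mul_one, mul_one]
  rfl

theorem u_al (i i' : Fin m) : u i' (al i) = 0 := by
  rw [← ip_al]
  unfold al
  rw [ip_add_right, ip_single, ip_single, mul_one, mul_one]
  by_cases h : i' = i
  · subst h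
    simp only [Pi.add_apply]
    rw [Pi.single_eq_same, Pi.single_eq_same, Pi.single_eq_of_ne, Pi.single_eq_of_ne]
    · decide
    · intro h'
      have := congrArg Fin.val h'
      simp at this
    · intro h'
      have := congrArg Fin.val h'
      simp at this
  · have hne : i'.val ≠ i.val := fun h' => h (Fin.ext h')
    simp only [Pi.add_apply]
    rw [Pi.single_eq_of_ne, Pi.single_eq_of_ne, Pi.single_eq_of_ne, Pi.single_eq_of_ne]
    · decide
    all_goals
      intro h'
      have := congrArg Fin.val h'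
      simp only at this
      omega

theorem U_al (j : ℕ) (y : Vec m) (i : Fin m) : U j y (al i) = 0 := by
  funext i'
  unfold U
  rw [u_al, zero_mul, ite_self]
  rfl

/-- The indicator vector of a set. -/
def ind {n : ℕ} (A : Finset (Fin n)) : Fin n → ZMod 2 := fun i => if i ∈ A then 1 else 0

theorem parOn_eq_ip {n : ℕ} (A : Finset (Fin n)) (x : Fin n → ZMod 2) :
    parOn A x = ip (ind A) x := by
  unfold parOn ip ind
  refine sum_congr rfl fun i _ => ?_
  split_ifs <;> simp

theorem parOn_ind {n : ℕ} (A B : Finset (Fin n)) : parOn A (ind B) = ((A ∩ B).card : ZMod 2) := by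
  unfold parOn ind
  rw [card_eq_sum_ones, Nat.cast_sum, ← sum_filter, ← sum_filter, filter_filter]
  have : univ.filter (fun i => i ∈ A ∧ i ∈ B) = A ∩ B := by
    ext i; simp
  rw [this]
  simp

theorem ip_perm {n : ℕ} (π : Equiv.Perm (Fin n)) (x z : Fin n → ZMod 2) :
    ip (fun i => x (π i)) (fun i => z (π i)) = ip x z := by
  unfold ip
  exact Equiv.sum_comp π (fun i => x i * z i)

theorem par_perm {n : ℕ} (π : Equiv.Perm (Fin n)) (x : Fin n → ZMod 2) :
    par (fun i => x (π i)) = par x := by
  unfold par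
  exact Equiv.sum_comp π (fun i => x i)

/-- The polar form. -/
def B (A : Finset (Fin (2 * m))) (π : Equiv.Perm (Fin (2 * m))) (j : ℕ) (y x z : Vec m) : ZMod 2 :=
  (parOn A (fun i => x (π i)) * parOn A (fun i => z (π i)) +
    parOn Aᶜ (fun i => x (π i)) * parOn Aᶜ (fun i => z (π i)) + ip x z) +
  (par (U j y x) * par (U j y z) + ip (U j y x) (U j y z))

theorem B_nondegenerate (A : Finset (Fin (2 * m))) (hA : Even A.card)
    (π : Equiv.Perm (Fin (2 * m))) (j : ℕ) (y z : Vec m) (h : ∀ x, B A π j y x z = 0) : z = 0 := by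
  -- step 1
  have s1 : ∀ i : Fin m, u i z = parOn A (fun t => al i (π t)) * par z := by
    intro i
    have h1 := h (al i)
    unfold B at h1
    rw [U_al, ip_comm (al i), ip_al] at h1
    have h2 : parOn A (fun t => al i (π t)) + parOn Aᶜ (fun t => al i (π t)) = 0 := by
      rw [parOn_compl, par_perm]
      unfold al
      rw [par_add, par_single, par_single]
      decide
    have h3 : parOn A (fun t => z (π t)) + parOn Aᶜ (fun t => z (π t)) = par z := by
      rw [parOn_compl, par_perm]
    have h4 : parOn Aᶜ (fun t => al i (π t)) = parOn A (fun t => al i (π t)) :=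
      (CharTwo.add_eq_zero.1 h2).symm
    have h5 : par (0 : Fin m → ZMod 2) = 0 := by simp [par]
    have h6 : ip (0 : Fin m → ZMod 2) (U j y z) = 0 := by simp [ip]
    rw [h4, h5, h6] at h1
    rw [← h3]
    have h7 := zmod2_add_self (u i z)
    linear_combination (-1 : ZMod 2) * h1 + h7
  -- the key computation
  have key : ∀ x : Vec m, (∀ i, u i x = parOn A (fun t => al i (π t))) →
      par (U j y x) * par (U j y z) + ip (U j y x) (U j y z) = 0 := by
    intro x hx
    have h1 : U j y z = fun i => U j y x i * par z := by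
      funext i
      unfold U
      rw [s1, hx]
      split_ifs
      · ring
      · ring
    have h2 : par (U j y z) = par (U j y x) * par z := by
      rw [h1]; unfold par; rw [sum_mul]
    have h0 : ∀ (w : Fin m → ZMod 2) (K : ZMod 2), par w * K = ∑ i, w i * K := fun w K => by
      unfold par; rw [sum_mul]
    have h3 : ip (U j y x) (U j y z) = par (U j y x) * par z := by
      rw [h1, h0]
      unfold ip
      refine sum_congr rfl fun i _ => ?_
      rw [← mul_assoc, zmod2_mul_self]
    rw [h2, h3, ← mul_assoc, zmod2_mul_self, zmod2_add_self]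
  have hAcard : ((A.card : ℕ) : ZMod 2) = 0 := ZMod.natCast_eq_zero_iff_even.2 hA
  have hAccard : ((Aᶜ.card : ℕ) : ZMod 2) = 0 := by
    have h1 := card_add_card_compl A
    rw [Fintype.card_fin] at h1
    apply ZMod.natCast_eq_zero_iff_even.2
    obtain ⟨r, hr⟩ := hA
    exact ⟨m - r, by omega⟩
  -- step 2
  have s2 : parOn A (fun t => z (π t)) = 0 := by
    let x : Vec m := fun i => ind A (π⁻¹ i)
    have hxπ : (fun i => x (π i)) = ind A := by
      funext i; simp [x]
    have h1 := h x
    unfold B at h1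
    rw [hxπ, key x] at h1
    · have h2 : parOn A (ind A) = 0 := by rw [parOn_ind, inter_self, hAcard]
      have h3 : parOn Aᶜ (ind A) = 0 := by
        rw [parOn_ind, inter_comm, inter_compl, card_empty, Nat.cast_zero]
      have h4 : ip x z = parOn A (fun t => z (π t)) := by
        rw [← ip_perm π, hxπ, parOn_eq_ip]
      rw [h2, h3, h4] at h1
      linear_combination h1
    · intro i
      rw [parOn_eq_ip, ← hxπ, ip_perm π x (al i), ip_al]
  have s3 : parOn Aᶜ (fun t => z (π t)) = 0 := by
    let x : Vec m := fun i => ind Aᶜ (π⁻¹ i)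
    have hxπ : (fun i => x (π i)) = ind Aᶜ := by
      funext i; simp [x]
    have h1 := h x
    unfold B at h1
    rw [hxπ, key x] at h1
    · have h2 : parOn Aᶜ (ind Aᶜ) = 0 := by rw [parOn_ind, inter_self, hAccard]
      have h3 : parOn A (ind Aᶜ) = 0 := by
        rw [parOn_ind, inter_compl, card_empty, Nat.cast_zero]
      have h4 : ip x z = parOn Aᶜ (fun t => z (π t)) := by
        rw [← ip_perm π, hxπ, parOn_eq_ip]
      rw [h2, h3, h4] at h1
      linear_combination h1
    · intro i
      have h2 : parOn A (fun t => al i (π t)) + parOn Aᶜ (fun t => al i (π t)) = 0 := by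
        rw [parOn_compl, par_perm]
        unfold al
        rw [par_add, par_single, par_single]
        decide
      rw [CharTwo.add_eq_zero.1 h2, parOn_eq_ip Aᶜ, ← hxπ, ip_perm π x (al i), ip_al]
  have hpar : par z = 0 := by
    rw [← par_perm π, ← parOn_compl A, s2, s3, add_zero]
  have hU : U j y z = 0 := by
    funext i
    unfold U
    rw [s1, hpar, mul_zero, zero_mul, ite_self]
    rfl
  funext i
  have h1 := h (Pi.single i 1)
  unfold B at h1
  rw [s2, s3, hU] at h1
  have h5 : par (0 : Fin m → ZMod 2) = 0 := by simp [par]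
  have h6 : ∀ w, ip w (0 : Fin m → ZMod 2) = 0 := by simp [ip]
  rw [h5, h6, ip_comm, ip_single] at h1
  rw [Pi.zero_apply]
  linear_combination h1

theorem backward {m k : ℕ} {f : Vec m → ZMod 2} (hf : IsExplicit m f) : IsKBent m k f := by
  obtain ⟨A, b, c, hA, hf⟩ := hf
  intro π j _ _ y
  unfold walsh
  refine sum_of_polar (fun x => f (fun i => x (π i)) + form j x y) (B A π j y) ?_ ?_
    (B_nondegenerate A hA π j y)
  · intro x z
    have e1 : (fun i => (x + z) (π i)) = (fun i => x (π i)) + (fun i => z (π i)) := rfl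
    have e2 : ∀ w : Vec m, form j w y = ip w y + (Q univ (U j y w) + par (U j y w)) :=
      fun w => form_eq j w y
    have e3 : (fun i => (0 : Vec m) (π i)) = 0 := rfl
    have e4 : U j y (0 : Vec m) = 0 := by
      funext i
      unfold U u
      simp
    have e5 : ∀ w w' : Vec m, ∑ i, b i * (w + w') i = ∑ i, b i * w i + ∑ i, b i * w' i :=
      fun w w' => by
        rw [← sum_add_distrib]
        exact sum_congr rfl fun i _ => by rw [Pi.add_apply]; ring
    have e6 : ∑ i, b i * (0 : Vec m) i = 0 := by simp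
    have e7 : ip (0 : Vec m) y = 0 := by simp [ip]
    have e8 : par (0 : Fin m → ZMod 2) = 0 := by simp [par]
    simp only [hf, e1, e2, e3, e4, e6, e7, e8, Q_add A, U_add, ip_add_left, par_add, Q_univ_add,
      Q_zero, e5]
    rw [ip_perm π x z]
    unfold B
    have := zmod2_add_self c
    linear_combination (-1 : ZMod 2) * this
  · intro x x' z
    unfold B
    have e1 : (fun i => (x + x') (π i)) = (fun i => x (π i)) + (fun i => x' (π i)) := rfl
    rw [e1, parOn_add, parOn_add, ip_add_left, U_add, par_add, ip_add_left]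
    ring

end Backward

/-- **Classification.** Let `n = 2m` and `1 ≤ k ≤ m`, where `k = 1` only if `m = 1`. A Boolean
function `f` in `n` variables is `k`-bent iff there is a set `A` of coordinates with an even number
of elements such that `f` is the sum of `x_i x_j` over all pairs `i < j` lying both in `A` or both
outside `A`, plus an affine function.  The case `k = m` is the classification of the
`(n/2)`-bent functions for every even `n ≥ 2`. -/
theorem result (m k : ℕ) (hk : 1 ≤ k) (hkm : k ≤ m) (hk1 : k = 1 → m = 1) (f : Vec m → ZMod 2) :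
    IsKBent m k f ↔ IsExplicit m f :=
  ⟨forward hk hkm hk1, backward⟩

end Pool.Agent.Results.MP_0e3175_co.Classification
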